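import Pool.Agent.H777R4.DM.AsmN
import Pool.Agent.H630R3.DM.FreeP

/-! The linearized double shuffle Lie algebra: definitions, closure properties, profiles. -/

set_option autoImplicit false

namespace Pool.Agent.D0H84.LS

open Pool.Agent.H777R4.DM MonoidAlgebra
open Pool.Agent.H217R3.DMC (pr Hg coeff_pr pr_comm ωY ωY_mul ωY_one LieX_le length_wordX wd_one)

attribute [local instance 100] LieRing.ofAssociativeRing

/-- The linearized double shuffle relations for `ψ ∈ Lie[x₀, x₁]` (without terms `x₀, x₁, x₀x₁`): the words of `ψ`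
ending in `x₁`, read in the letters `y_{k+1} = x₀^k x₁`, form a primitive element for the coproduct `shΔ` for which
all `y_k` are primitive. -/
structure IsLS (ψ : A) : Prop where
  mem : ψ ∈ LieX
  c0 : co ψ [0] = 0
  c1 : co ψ [1] = 0
  c01 : co ψ [0, 1] = 0
  lin : ∃ P : AY, (∀ v, co P v = co ψ (wordX v)) ∧ shΔ P = inl P + inr P

/-- A set of Lie elements closed under differences and under taking weight components, whose elements
have a lowest depth part satisfying the linearized double shuffle relations. -/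
structure LP (K : A → Prop) : Prop where
  mem : ∀ ψ, K ψ → ψ ∈ LieX
  c0 : ∀ ψ, K ψ → co ψ [0] = 0
  c1 : ∀ ψ, K ψ → co ψ [1] = 0
  c01 : ∀ ψ, K ψ → co ψ [0, 1] = 0
  sub : ∀ ψ₁ ψ₂ (κ : ℚ), K ψ₁ → K ψ₂ → K (ψ₂ - κ • ψ₁)
  comp : ∀ ψ w, K ψ → K (comp w ψ)
  lead : ∀ ψ, K ψ → ∀ r : ℕ, 1 ≤ r → (∀ u, co ψ u ≠ 0 → r ≤ u.count 1) → Prim (Fp r ψ 0)

/-! ### projections of primitive elements -/

section
variable {ω : FreeMonoid ℕ → ℕ}

/-- the induced weight on pairs -/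
def ω2 (ω : FreeMonoid ℕ → ℕ) (m : FreeMonoid ℕ × FreeMonoid ℕ) : ℕ := ω m.1 + ω m.2

lemma ω2_mul (hm : ∀ a b, ω (a * b) = ω a + ω b) (a b : FreeMonoid ℕ × FreeMonoid ℕ) :
    ω2 ω (a * b) = ω2 ω a + ω2 ω b := by
  simp only [ω2, Prod.fst_mul, Prod.snd_mul, hm]; ring

lemma Hg_inl (h1 : ω 1 = 0) (m : FreeMonoid ℕ) : Hg (ω2 ω) (ω m) (inl (MonoidAlgebra.single m 1)) := by
  have h : inl (MonoidAlgebra.single m 1) = MonoidAlgebra.single (m, 1) (1 : ℚ) := by
    simp [inl]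
  rw [h]
  have := Hg.single (ω2 ω) (m, (1 : FreeMonoid ℕ)) (1 : ℚ)
  simpa [ω2, h1] using this

lemma Hg_inr (h1 : ω 1 = 0) (m : FreeMonoid ℕ) : Hg (ω2 ω) (ω m) (inr (MonoidAlgebra.single m 1)) := by
  have h : inr (MonoidAlgebra.single m 1) = MonoidAlgebra.single (1, m) (1 : ℚ) := by
    simp [inr]
  rw [h]
  have := Hg.single (ω2 ω) ((1 : FreeMonoid ℕ), m) (1 : ℚ)
  simpa [ω2, h1] using this

lemma Hg_sh (h1 : ω 1 = 0) (hm : ∀ a b, ω (a * b) = ω a + ω b) (m : FreeMonoid ℕ) :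
    Hg (ω2 ω) (ω m) (shΔ (MonoidAlgebra.single m 1)) := by
  induction m using FreeMonoid.inductionOn' with
  | one =>
    have : shΔ (MonoidAlgebra.single 1 1) = 1 := map_one shΔ
    rw [this, h1]
    have h2 := Hg.single (ω2 ω) (1 : FreeMonoid ℕ × FreeMonoid ℕ) (1 : ℚ)
    have e : ω2 ω 1 = 0 := by simp [ω2, h1]
    rw [e] at h2
    exact h2
  | of_mul k v ih =>
    have e1 : (MonoidAlgebra.single (FreeMonoid.of k * v) 1 : AY) =
        MonoidAlgebra.single (FreeMonoid.of k) 1 * MonoidAlgebra.single v 1 := by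
      rw [single_mul_single, mul_one]
    rw [e1, map_mul, hm]
    refine Hg.mul (ω2_mul hm) ?_ ih
    have h2 : shΔ (MonoidAlgebra.single (FreeMonoid.of k) 1) = inl (wd [k]) + inr (wd [k]) := by
      simp [shΔ]
    rw [h2, wd_one]
    exact Hg.add (Hg_inl h1 _) (Hg_inr h1 _)

/-- homogeneous components of primitive elements are primitive -/
lemma prim_pr (h1 : ω 1 = 0) (hm : ∀ a b, ω (a * b) = ω a + ω b) {P : AY} (hP : Prim P) (w : ℕ) :
    Prim (pr ω w P) := by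
  unfold Prim at *
  have e1 := pr_comm (ω := ω) (ω' := ω2 ω) shΔ.toLinearMap (Hg_sh h1 hm) w P
  have e2 := pr_comm (ω := ω) (ω' := ω2 ω) inl.toLinearMap (Hg_inl h1) w P
  have e3 := pr_comm (ω := ω) (ω' := ω2 ω) inr.toLinearMap (Hg_inr h1) w P
  simp only [AlgHom.toLinearMap_apply] at e1 e2 e3
  rw [e1, e2, e3, hP, map_add]

end

/-- number of letters -/
def ωL (m : FreeMonoid ℕ) : ℕ := (FreeMonoid.toList m).length

lemma co_pr (ω : FreeMonoid ℕ → ℕ) (w : ℕ) (P : AY) (v : List ℕ) :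
    co (pr ω w P) v = if ω (FreeMonoid.ofList v) = w then co P v else 0 := by
  unfold co
  rw [coeff_pr]

/-- depth parts of primitive elements -/
lemma prim_dp {P : AY} (hP : Prim P) (r : ℕ) : Prim (dp r P) := by
  have h : dp r P = pr ωL r P := by
    apply al_ext
    intro v
    rw [co_dp, co_pr]
    rfl
  rw [h]
  refine prim_pr (by simp [ωL]) ?_ hP r
  intro a b
  simp [ωL, FreeMonoid.toList_mul]

/-! ### `IsLS` -/

lemma isLS_sub {ψ₁ ψ₂ : A} (h₁ : IsLS ψ₁) (h₂ : IsLS ψ₂) (κ : ℚ) : IsLS (ψ₂ - κ • ψ₁) := by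
  refine ⟨?_, ?_, ?_, ?_, ?_⟩
  · exact LieX.sub_mem h₂.mem (LieX.smul_mem κ h₁.mem)
  · rw [co_sub, co_smul, h₁.c0, h₂.c0]; ring
  · rw [co_sub, co_smul, h₁.c1, h₂.c1]; ring
  · rw [co_sub, co_smul, h₁.c01, h₂.c01]; ring
  · obtain ⟨Q₁, c₁, s₁⟩ := h₁.lin
    obtain ⟨Q₂, c₂, s₂⟩ := h₂.lin
    refine ⟨Q₂ - κ • Q₁, ?_, prim_sub s₂ (prim_smul κ s₁)⟩
    intro v
    rw [co_sub, co_smul, c₁, c₂, co_sub, co_smul]

lemma isLS_comp {ψ : A} (w : ℕ) (h : IsLS ψ) : IsLS (comp w ψ) := by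
  refine ⟨LieX_le h.mem w, ?_, ?_, ?_, ?_⟩
  · rw [Pool.Agent.H217R3.DMC.co_comp, h.c0]; simp
  · rw [Pool.Agent.H217R3.DMC.co_comp, h.c1]; simp
  · rw [Pool.Agent.H217R3.DMC.co_comp, h.c01]; simp
  · obtain ⟨P, hP, hs⟩ := h.lin
    refine ⟨pr ωY w P, ?_, prim_pr ωY_one ωY_mul hs w⟩
    intro v
    rw [co_pr, hP v, Pool.Agent.H217R3.DMC.co_comp, length_wordX]
    rfl

lemma isLS_lead {ψ : A} (h : IsLS ψ) (r : ℕ) : Prim (Fp r ψ 0) := by
  obtain ⟨P, hP, hs⟩ := h.lin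
  have e : Fp r ψ 0 = dp r P := by
    apply al_ext
    intro v
    rw [co_Fp, co_dp, hP v, List.replicate_zero, List.append_nil]
  rw [e]
  exact prim_dp hs r

theorem lp_ls : LP IsLS where
  mem := fun _ h => h.mem
  c0 := fun _ h => h.c0
  c1 := fun _ h => h.c1
  c01 := fun _ h => h.c01
  sub := fun _ _ κ h₁ h₂ => isLS_sub h₁ h₂ κ
  comp := fun _ w h => isLS_comp w h
  lead := fun _ h r _ _ => isLS_lead h r

/-! ### profiles -/

theorem small {ψ : A} (hmem : ψ ∈ LieX) (c0 : co ψ [0] = 0) (c1 : co ψ [1] = 0) (c01 : co ψ [0, 1] = 0)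
    (u : List (Fin 2)) (hu : co ψ u ≠ 0) : 3 ≤ u.length ∧ 1 ≤ u.count 1 := by
  have hB := taskTwoB
  have hC := Pool.Agent.H352.DSH.taskTwoC
  have h0 : co ψ [] = 0 := by
    have h := hB ψ hmem []
    simp at h
    linarith
  have hzero : ∀ n : ℕ, co ψ (List.replicate n 0) = 0 := by
    intro n
    cases n with
    | zero => simpa using h0
    | succ n =>
      have h := hC ψ hmem 0 c0 (List.replicate n 0)
      rw [List.length_replicate] at h
      rw [Finset.sum_congr rfl (fun j hj => by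
        rw [insertIdx_replicate_zero n j (by
          have := Finset.mem_range.1 hj
          omega)])] at h
      rw [Finset.sum_const, Finset.card_range, nsmul_eq_mul] at h
      rcases mul_eq_zero.1 h with h | h
      · exact absurd h (by positivity)
      · exact h
  have hcount : 1 ≤ u.count 1 := by
    by_contra hcon
    have hc : u.count 1 = 0 := by omega
    have hmem : (1 : Fin 2) ∉ u := List.count_eq_zero.1 hc
    have hall : ∀ b ∈ u, b = (0 : Fin 2) := by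
      intro b hb
      have hb1 : b ≠ 1 := by
        rintro rfl
        exact hmem hb
      omega
    have hrep : u = List.replicate u.length 0 := List.eq_replicate_iff.2 ⟨rfl, hall⟩
    apply hu
    rw [hrep]
    exact hzero _
  refine ⟨?_, hcount⟩
  by_contra hlen
  have h11 : co ψ [1, 1] = 0 := by
    have h := hC ψ hmem 1 c1 [1]
    simp [Finset.sum_range_succ] at h
    linarith
  have h10 : co ψ [1, 0] = 0 := by
    have h := hB ψ hmem [0, 1]
    rw [c01] at h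
    simpa using h
  have h2 : ∀ i j : Fin 2, co ψ [i, j] = 0 := by
    intro i j
    match i, j with
    | 0, 0 => exact hzero 2
    | 0, 1 => exact c01
    | 1, 0 => exact h10
    | 1, 1 => exact h11
  have h1 : ∀ i : Fin 2, co ψ [i] = 0 := by
    intro i
    match i with
    | 0 => exact c0
    | 1 => exact c1
  apply hu
  match u, hlen with
  | [], _ => exact h0
  | [i], _ => exact h1 i
  | [i, j], _ => exact h2 i j
  | _ :: _ :: _ :: v, h => exact absurd (by simp only [List.length_cons]; omega) h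

lemma hR {ψ : A} (hmem : ψ ∈ LieX) (c0 : co ψ [0] = 0) (r j : ℕ) :
    ((j : ℚ) + 1) • Fp r ψ (j + 1) = - dl (Fp r ψ j) := by
  have := congrArg (dp r) (Pool.Agent.H777R4.DM.R0.taskR0 ψ hmem c0 j)
  rw [map_smul, map_neg, dp_dl] at this
  exact this

lemma prim_all {ψ : A} (hmem : ψ ∈ LieX) (c0 : co ψ [0] = 0) {r : ℕ} (h0 : Prim (Fp r ψ 0)) :
    ∀ j, Prim (Fp r ψ j) := by
  intro j
  induction j with
  | zero => exact h0
  | succ j ih =>
    have h1 : Fp r ψ (j + 1) = ((j : ℚ) + 1)⁻¹ • (- dl (Fp r ψ j)) := by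
      rw [← hR hmem c0 r j, smul_smul, inv_mul_cancel₀ (by positivity), one_smul]
    rw [h1]
    exact prim_smul _ (prim_neg (Pool.Agent.H237R3.DM.taskDelta _ ih))

lemma exists_prof {K : A → Prop} (hK : LP K) {ψ : A} {w : ℕ} (hψ : K ψ) (hw : LenHom ψ w)
    (h0 : ψ ≠ 0) : ∃ r k, Prof ψ w r k := by
  classical
  have small := small (hK.mem ψ hψ) (hK.c0 ψ hψ) (hK.c1 ψ hψ) (hK.c01 ψ hψ)
  have hex : ∃ c, ∃ u, co ψ u ≠ 0 ∧ u.count 1 = c := by
    obtain ⟨u, hu⟩ := exists_co_ne h0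
    exact ⟨_, u, hu, rfl⟩
  obtain ⟨r, hr⟩ : ∃ r, r = Nat.find hex := ⟨_, rfl⟩
  have hspec : ∃ u, co ψ u ≠ 0 ∧ u.count 1 = r := by rw [hr]; exact Nat.find_spec hex
  have hmin : ∀ u, co ψ u ≠ 0 → r ≤ u.count 1 := by
    intro u hu
    rw [hr]
    exact Nat.find_min' hex ⟨u, hu, rfl⟩
  have hr1 : 1 ≤ r := by
    obtain ⟨u, hu, h1⟩ := hspec
    rw [← h1]
    exact (small u hu).2
  have hF0 : ∀ v, co (Fp r ψ 0) v = if v.length = r then co ψ (wordX v) else 0 := by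
    intro v
    rw [co_Fp, List.replicate_zero, List.append_nil]
  have hR := hR (hK.mem ψ hψ) (hK.c0 ψ hψ) r
  have hprim := prim_all (hK.mem ψ hψ) (hK.c0 ψ hψ) (hK.lead ψ hψ r hr1 hmin)
  obtain ⟨k, v, hk, hv, hkv⟩ := Pool.Agent.H988R3.DM.taskTwoD H777DSH.H610.taskTwoA taskTwoB
    Pool.Agent.H352.DSH.taskTwoC ψ (hK.mem ψ hψ) (hK.c0 ψ hψ) (hK.c1 ψ hψ)
    (fun u hu => (small u hu).1) r hr1 hmin
    hspec (Fp r ψ 0) hF0 (hprim 0)
  have hne : Fp r ψ k ≠ 0 := by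
    intro h
    have h1 := co_Fp r ψ k v
    rw [h, co_zero, if_pos hv] at h1
    exact hkv h1.symm
  have hbd : ∀ j, Fp r ψ j ≠ 0 → j ≤ w := by
    intro j hj
    obtain ⟨v, hv⟩ := exists_co_ne hj
    have := (co_Fp_ne hw hv).2
    omega
  refine ⟨r, Nat.findGreatest (fun j => Fp r ψ j ≠ 0) w, hr1, ?_, hw, hmin, ?_, ?_, hprim, hR⟩
  · exact le_trans hk (Nat.le_findGreatest (hbd k hne) hne)
  · exact Nat.findGreatest_spec (P := fun j => Fp r ψ j ≠ 0) (hbd k hne) hne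
  · intro j hj
    by_contra hcon
    exact Nat.findGreatest_is_greatest hj (hbd j hcon) hcon

end Pool.Agent.D0H84.LS
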