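import Pool.Agent.D0H84.LS.Main

/-! Elements of one weight. -/

set_option autoImplicit false

namespace Pool.Agent.D0H84.LS

open Pool.Agent.H777R4.DM

attribute [local instance 100] LieRing.ofAssociativeRing

lemma insertIdx_replicate_one (n : ℕ) : ∀ j : ℕ, j ≤ n →
    (List.replicate n (1 : Fin 2)).insertIdx j 1 = List.replicate (n + 1) 1 := by
  induction n with
  | zero =>
    intro j hj
    obtain rfl : j = 0 := by omega
    simp
  | succ n ih =>
    intro j hj
    cases j with
    | zero => simp [List.replicate_succ]
    | succ j =>
      rw [List.replicate_succ, List.insertIdx_succ_cons, ih j (by omega)]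
      rfl

/-- a Lie element without linear term has no word `x₁^n` -/
lemma ones {ψ : A} (hmem : ψ ∈ LieX) (c1 : co ψ [1] = 0) (n : ℕ) (hn : 1 ≤ n) :
    co ψ (List.replicate n 1) = 0 := by
  cases n with
  | zero => omega
  | succ n =>
    have h := Pool.Agent.H352.DSH.taskTwoC ψ hmem 1 c1 (List.replicate n 1)
    rw [List.length_replicate] at h
    rw [Finset.sum_congr rfl (fun j hj => by
      rw [insertIdx_replicate_one n j (by
        have := Finset.mem_range.1 hj
        omega)])] at h
    rw [Finset.sum_const, Finset.card_range, nsmul_eq_mul] at h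
    rcases mul_eq_zero.1 h with h | h
    · exact absurd h (by positivity)
    · exact h

/-- linearly independent elements of one weight `w` and of depths between `r` and `2 r - 1` -/
theorem oneWeight {K : A → Prop} (hK : LP K) {n r w : ℕ} {ψ : Fin n → A} (hr : 1 ≤ r) (h0 : K 0)
    (hdm : ∀ i, K (ψ i))
    (hψ : ∀ i u, co (ψ i) u ≠ 0 → u.length = w ∧ r ≤ u.count 1 ∧ u.count 1 < 2 * r)
    (hind : LinearIndependent ℚ ψ) : Function.Injective (PhiN ψ) := by
  rcases Nat.eq_zero_or_pos n with hn | hn
  · subst hn
    refine many hK (R := 0) (W := ∅) (wt := fun _ => 0) hr (by omega) (by simp) (fun i => i.elim0)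
      hdm h0 (fun i => i.elim0) (fun i => i.elim0) ?_
    intro c _
    exact Subsingleton.elim _ _
  · have hw : 3 ≤ w := by
      have i : Fin n := ⟨0, hn⟩
      obtain ⟨u, hu⟩ := exists_co_ne (hind.ne_zero i)
      rw [← (hψ i u hu).1]
      exact (small (hK.mem _ (hdm i)) (hK.c0 _ (hdm i)) (hK.c1 _ (hdm i)) (hK.c01 _ (hdm i)) u hu).1
    refine many hK (R := min (2 * r - 1) (w - 1)) (W := {w}) (wt := fun _ => w) hr ?_ ?_ (fun i => by simp)
      hdm h0 (fun i u hu => (hψ i u hu).1) (fun i u hu => (hψ i u hu).2.1) ?_
    · have := min_le_left (2 * r - 1) (w - 1)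
      omega
    · intro w' hw'
      rw [Finset.mem_singleton] at hw'
      subst hw'
      rw [Finset.card_singleton, one_mul]
      have := min_le_right (2 * r - 1) (w' - 1)
      omega
    · intro c hc
      have hz : cmb ψ c = 0 := by
        apply al_ext
        intro u
        rw [co_zero]
        by_contra hu
        have hu' : ∃ i, co (ψ i) u ≠ 0 := by
          by_contra hcon
          push Not at hcon
          apply hu
          unfold cmb
          rw [co_sum]
          refine Finset.sum_eq_zero fun i _ => ?_
          rw [co_smul, hcon i, mul_zero]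
        obtain ⟨i, hi⟩ := hu'
        obtain ⟨e1, e2, e3⟩ := hψ i u hi
        by_cases hle : u.count 1 ≤ min (2 * r - 1) (w - 1)
        · exact hu (hc u hle)
        · have h4 : u.count 1 ≤ u.length := List.count_le_length
          have h5 : w ≤ u.count 1 := by
            by_contra hcon
            apply hle
            refine le_min (by omega) (by omega)
          have h6 : u.count 1 = u.length := by omega
          have h7 : u = List.replicate u.length 1 := by
            rw [List.eq_replicate_iff]
            refine ⟨rfl, ?_⟩
            intro b hb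
            exact ((List.count_eq_length.1 h6) b hb).symm
          apply hi
          rw [h7]
          exact ones (hK.mem _ (hdm i)) (hK.c1 _ (hdm i)) _ (by omega)
      rw [Fintype.linearIndependent_iff] at hind
      funext i
      exact hind c hz i

lemma isLS_zero : IsLS (0 : A) := by
  refine ⟨LieX.zero_mem, co_zero _, co_zero _, co_zero _, 0, ?_, ?_⟩
  · intro v
    rw [co_zero, co_zero]
  · rw [map_zero, map_zero, map_zero, add_zero]

end Pool.Agent.D0H84.LS
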