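import Pool.Agent.D0H84.LS.Basic

/-! Freeness theorems for sets of Lie elements with linearized double shuffle lowest depth parts. -/

set_option autoImplicit false

namespace Pool.Agent.D0H84.LS

open Pool.Agent.H777R4.DM

attribute [local instance 100] LieRing.ofAssociativeRing

theorem homog {K : A → Prop} (hK : LP K) {ψ₁ ψ₂ : A} {w₁ w₂ : ℕ} (h₁ : K ψ₁) (h₂ : K ψ₂)
    (hw₁ : LenHom ψ₁ w₁) (hw₂ : LenHom ψ₂ w₂) (hli : ∀ a b : ℚ, a • ψ₁ + b • ψ₂ = 0 → a = 0 ∧ b = 0) :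
    Function.Injective (Phi ψ₁ ψ₂) := by
  have kl1 := Pool.Agent.H835R4.KL1.taskKL1
  have kl2 := Pool.Agent.H428R3.DMKL2.kl2
  have l1 := Pool.Agent.H337R3.Lead1.lead1
  have l2 := Pool.Agent.H777R4.DM.Lead2.lead2_ok
  have n1 : ψ₁ ≠ 0 := by
    intro h
    have := hli 1 0 (by rw [h]; simp)
    exact one_ne_zero this.1
  have n2 : ψ₂ ≠ 0 := by
    intro h
    have := hli 0 1 (by rw [h]; simp)
    exact one_ne_zero this.2
  obtain ⟨r₁, k₁, P₁⟩ := exists_prof hK h₁ hw₁ n1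
  obtain ⟨r₂, k₂, P₂⟩ := exists_prof hK h₂ hw₂ n2
  by_cases hA : ∀ c : ℚ, Fp r₂ ψ₂ k₂ ≠ c • Fp r₁ ψ₁ k₁
  · refine caseA kl1 kl2 l1 l2 P₁ P₂ ?_ hA
    intro c hc
    have hc0 : c ≠ 0 := by
      rintro rfl
      rw [zero_smul] at hc
      exact P₁.top hc
    apply hA c⁻¹
    rw [hc, smul_smul, inv_mul_cancel₀ hc0, one_smul]
  · push Not at hA
    obtain ⟨κ, hκ⟩ := hA
    have hκ0 : κ ≠ 0 := by
      rintro rfl
      rw [zero_smul] at hκ
      exact P₂.top hκ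
    have hr : r₁ = r₂ := by
      obtain ⟨v, hv⟩ := exists_co_ne P₁.top
      have h1 := Fp_lenHom _ _ _ v hv
      have h2 : co (Fp r₂ ψ₂ k₂) v ≠ 0 := by
        rw [hκ, co_smul]; exact mul_ne_zero hκ0 hv
      have h3 := Fp_lenHom _ _ _ v h2
      omega
    subst hr
    apply taskShear_proof ψ₁ ψ₂ κ
    by_cases hw : w₁ = w₂
    · subst hw
      have hk : k₁ = k₂ := by
        obtain ⟨v, hv⟩ := exists_co_ne P₁.top
        have h1 := (co_Fp_ne P₁.hom hv).2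
        have h2 : co (Fp r₁ ψ₂ k₂) v ≠ 0 := by
          rw [hκ, co_smul]; exact mul_ne_zero hκ0 hv
        have h3 := (co_Fp_ne P₂.hom h2).2
        omega
      subst hk
      have hne : ψ₂ - κ • ψ₁ ≠ 0 := by
        intro h
        have := hli (-κ) 1 (by rw [← h]; module)
        exact one_ne_zero this.2
      obtain ⟨r', k', P'⟩ := exists_prof hK (hK.sub ψ₁ ψ₂ κ h₁ h₂) (lenHom_sub hw₁ hw₂ κ) hne
      have hd : ∀ v, co (Fp r₁ ψ₁ k₁) v ≠ 0 → co (Fp r' (ψ₂ - κ • ψ₁) k') v ≠ 0 → False := by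
        intro v hv1 hv2
        have e1 := co_Fp_ne P₁.hom hv1
        have e2 := co_Fp_ne P'.hom hv2
        have e3 : r' = r₁ := by omega
        subst e3
        have e4 : k' = k₁ := by omega
        subst e4
        apply P'.top
        rw [Fp_sub, hκ, sub_self]
      refine caseA kl1 kl2 l1 l2 P₁ P' (not_prop P₁.top ?_) (not_prop P'.top ?_)
      · intro v hv
        by_contra hcon
        exact hd v hv hcon
      · intro v hv
        by_contra hcon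
        exact hd v hcon hv
    · exact caseB2 kl1 kl2 l1 l2 P₁ P₂ κ hκ0 hw hκ

/-- the case of linearly independent lowest parts -/
lemma low_indep {K : A → Prop} (hK : LP K) {ψ₁ ψ₂ : A} (h₁ : K ψ₁)
    (h₂ : K ψ₂) {w₁ w₂ : ℕ} (l₁ : ∀ u, co ψ₁ u ≠ 0 → w₁ ≤ u.length)
    (l₂ : ∀ u, co ψ₂ u ≠ 0 → w₂ ≤ u.length)
    (hli : ∀ a b : ℚ, a • comp w₁ ψ₁ + b • comp w₂ ψ₂ = 0 → a = 0 ∧ b = 0) :
    Function.Injective (Phi ψ₁ ψ₂) := by
  refine Pool.Agent.H28R3.DM.Low.low ![ψ₁, ψ₂] ![w₁, w₂] ?_ ?_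
  · rw [Fin.forall_fin_two]
    exact ⟨l₁, l₂⟩
  · exact homog hK (hK.comp ψ₁ w₁ h₁) (hK.comp ψ₂ w₂ h₂) (comp_lenHom w₁ ψ₁) (comp_lenHom w₂ ψ₂) hli

/-- two linearly independent elements of `K` -/
theorem two {K : A → Prop} (hK : LP K) {ψ₁ ψ₂ : A}
    (h₁ : K ψ₁) (h₂ : K ψ₂) (hli : ∀ a b : ℚ, a • ψ₁ + b • ψ₂ = 0 → a = 0 ∧ b = 0) :
    Function.Injective (Phi ψ₁ ψ₂) := by
  have n1 : ψ₁ ≠ 0 := by
    intro h
    have := hli 1 0 (by rw [h]; simp)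
    exact one_ne_zero this.1
  have n2 : ψ₂ ≠ 0 := by
    intro h
    have := hli 0 1 (by rw [h]; simp)
    exact one_ne_zero this.2
  obtain ⟨w₁, l₁, c₁⟩ := exists_low n1
  obtain ⟨w₂, l₂, c₂⟩ := exists_low n2
  by_cases hA : ∀ c : ℚ, comp w₂ ψ₂ ≠ c • comp w₁ ψ₁
  · refine low_indep hK h₁ h₂ l₁ l₂ ?_
    intro a b hab
    have hb : b = 0 := by
      by_contra hb
      apply hA (-(b⁻¹ * a))
      have h3 : b • comp w₂ ψ₂ = - (a • comp w₁ ψ₁) := eq_neg_of_add_eq_zero_right hab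
      have h4 : comp w₂ ψ₂ = b⁻¹ • (b • comp w₂ ψ₂) := by
        rw [smul_smul, inv_mul_cancel₀ hb, one_smul]
      rw [h4, h3]
      module
    refine ⟨?_, hb⟩
    rw [hb, zero_smul, add_zero] at hab
    exact (smul_eq_zero.mp hab).resolve_right c₁
  · push Not at hA
    obtain ⟨κ, hκ⟩ := hA
    have hκ0 : κ ≠ 0 := by
      rintro rfl
      rw [zero_smul] at hκ
      exact c₂ hκ
    have hw : w₁ = w₂ := by
      obtain ⟨u, hu⟩ := exists_co_ne c₁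
      have h1 := comp_lenHom _ _ u hu
      have h2 : co (comp w₂ ψ₂) u ≠ 0 := by
        rw [hκ, co_smul]; exact mul_ne_zero hκ0 hu
      have h3 := comp_lenHom _ _ u h2
      omega
    subst hw
    apply taskShear_proof ψ₁ ψ₂ κ
    have hne : ψ₂ - κ • ψ₁ ≠ 0 := by
      intro h
      have := hli (-κ) 1 (by rw [← h]; module)
      exact one_ne_zero this.2
    have hd := hK.sub ψ₁ ψ₂ κ h₁ h₂
    obtain ⟨w₃, l₃, c₃⟩ := exists_low hne
    refine low_indep hK h₁ hd l₁ l₃ ?_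
    refine indep_of_ne (comp_lenHom _ _) (comp_lenHom _ _) c₁ c₃ ?_
    rintro rfl
    apply c₃
    rw [map_sub, map_smul, hκ, sub_self]

lemma LP.zero {K : A → Prop} (hK : LP K) {ψ : A} (h : K ψ) : K 0 := by
  have := hK.sub ψ ψ 1 h h
  rwa [one_smul, sub_self] at this

lemma LP.add {K : A → Prop} (hK : LP K) {ψ₁ ψ₂ : A} (h₁ : K ψ₁) (h₂ : K ψ₂) : K (ψ₁ + ψ₂) := by
  have := hK.sub ψ₂ ψ₁ (-1) h₂ h₁
  rwa [neg_smul, one_smul, sub_neg_eq_add] at this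

lemma LP.smul {K : A → Prop} (hK : LP K) {ψ : A} (h : K ψ) (c : ℚ) : K (c • ψ) := by
  have := hK.sub ψ 0 (-c) h (hK.zero h)
  rwa [neg_smul, sub_neg_eq_add, zero_add] at this

lemma LP.sum {K : A → Prop} (hK : LP K) (h0 : K 0) {ι : Type} (s : Finset ι) (f : ι → A)
    (h : ∀ i ∈ s, K (f i)) : K (∑ i ∈ s, f i) :=
  Finset.sum_induction f K (fun _ _ => hK.add) h0 h

/-- `n` elements, independent modulo depth `> R`, of depths `≥ r`, `R < 2 r` -/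
theorem many {K : A → Prop} (hK : LP K) {n r R : ℕ} {ψ : Fin n → A} {wt : Fin n → ℕ} {W : Finset ℕ}
    (hr : 1 ≤ r) (hR : R + 1 ≤ 2 * r) (hW : ∀ w ∈ W, W.card * R < w)
    (hwt : ∀ i, wt i ∈ W) (hdm : ∀ i, K (ψ i)) (h0 : K 0) (hhom : ∀ i, LenHom (ψ i) (wt i))
    (hcnt : ∀ i u, co (ψ i) u ≠ 0 → r ≤ u.count 1)
    (hind : ∀ c : Fin n → ℚ, (∀ u, u.count 1 ≤ R → co (cmb ψ c) u = 0) → c = 0) :
    Function.Injective (PhiN ψ) := by
  have hd : ∀ c w, K (cmw ψ wt c w) := by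
    intro c w
    unfold cmw
    exact hK.sum h0 _ _ fun i _ => hK.smul (hdm i) _
  have r0 := Pool.Agent.H777R4.DM.R0.taskR0
  refine core2 Pool.Agent.H337R3.Lead1.lead1 Pool.Agent.H861R3.DM.LeadN.leadN_ok
    Pool.Agent.H630R3.DM.FreeP.taskFreeP r0 taskVan Pool.Agent.H553R3.taskAdMu
    Pool.Agent.H826R3.DM.taskShearN hr hR hwt hhom (fun i => hK.mem _ (hdm i)) (fun i => hK.c0 _ (hdm i)) hcnt
    hind ?_ ?_
  · intro c w hw ρ hρr hρR hdep hu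
    obtain ⟨k, hk, hkne⟩ := Pool.Agent.H30R3.DSNKB.taskKB r0 taskTwoB _ ρ w (hK.mem _ (hd c w))
      (hK.c0 _ (hd c w)) (cmw_hom hhom c w) (by omega) hdep hu
      (hK.lead _ (hd c w) ρ (by omega) hdep)
    refine ⟨k, ?_, hkne⟩
    have h1 := hW w hw
    have h2 : W.card * ρ ≤ W.card * R := Nat.mul_le_mul_left _ hρR
    have h3 : W.card * ρ < (k + 1) * ρ := by
      have h4 : (k + 1) * ρ = ρ * k + ρ := by ring
      omega
    have := Nat.lt_of_mul_lt_mul_right h3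
    omega
  · intro c w hw ρ hρr hρR hdep
    exact prim_all (hK.mem _ (hd c w)) (hK.c0 _ (hd c w)) (hK.lead _ (hd c w) ρ (by omega) hdep)

end Pool.Agent.D0H84.LS
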